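import Mathlib

set_option autoImplicit false

/-!
# MP_97b8d2_co: graphs without three independent vertices have unbounded sphere dimension

A graph on two disjoint cliques (a co-bipartite graph) has no induced minor `3 K_1`.  Take one
clique on `Fin m` and another one on the subsets of `Fin m`, with `i` adjacent to `S` iff `i ∈ S`.
For a fixed dimension the adjacency of two spheres is given by the sign of a bilinear form in a
bounded number of coordinates attached to the two spheres, so a large set of spheres is never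
shattered.  The same holds for chords of a circle.
-/

open SimpleGraph

namespace Pool.Agent.Results.MP_97b8d2_co.CoBipartite

/-- `H` is an induced minor of `G`: there are pairwise disjoint connected (non-empty) vertex sets
`B w` of `G`, one for each vertex `w` of `H`, such that distinct `w`, `w'` are adjacent in `H` iff
some edge of `G` joins `B w` and `B w'`.  (Deleting the other vertices and contracting every `B w`
to a vertex gives `H`.) -/
def IsInducedMinor {W V : Type} (H : SimpleGraph W) (G : SimpleGraph V) : Prop :=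
  ∃ B : W → Set V, (∀ w, (G.induce (B w)).Connected) ∧
    (∀ w w', w ≠ w' → Disjoint (B w) (B w')) ∧
    ∀ w w', w ≠ w' → (H.Adj w w' ↔ ∃ x ∈ B w, ∃ y ∈ B w', G.Adj x y)

/-- `G` is a `d`-sphere graph: vertices `v` can be given spheres (centre `c v`, radius `r v > 0`) in
`ℝ^d` such that distinct vertices are adjacent exactly when their spheres meet. -/
def IsSphereGraph (d : ℕ) {V : Type} (G : SimpleGraph V) : Prop :=
  ∃ (c : V → EuclideanSpace ℝ (Fin d)) (r : V → ℝ), (∀ v, 0 < r v) ∧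
    ∀ u v, u ≠ v → (G.Adj u v ↔
      (Metric.sphere (c u) (r u) ∩ Metric.sphere (c v) (r v)).Nonempty)

/-- `G` is a circle graph: vertices `v` can be given chords of the unit circle (with distinct ends
`P v`, `Q v`) such that distinct vertices are adjacent exactly when their chords meet. -/
def IsCircleGraph {V : Type} (G : SimpleGraph V) : Prop :=
  ∃ P Q : V → EuclideanSpace ℝ (Fin 2), (∀ v, ‖P v‖ = 1 ∧ ‖Q v‖ = 1 ∧ P v ≠ Q v) ∧
    ∀ u v, u ≠ v → (G.Adj u v ↔ (segment ℝ (P u) (Q u) ∩ segment ℝ (P v) (Q v)).Nonempty)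

open Classical in
/-- The sphere dimension of `G`: `1` if `G` is a circle graph, and otherwise the least `d ≥ 2` such
that `G` is a `d`-sphere graph (`⊤` if there were none). -/
noncomputable def sphereDim {V : Type} (G : SimpleGraph V) : ℕ∞ :=
  if IsCircleGraph G then 1 else ⨅ d ∈ {d : ℕ | 2 ≤ d ∧ IsSphereGraph d G}, (d : ℕ∞)

/-- The clique on `Fin m` and the clique on the subsets of `Fin m`, with `i` adjacent to `S` iff
`i ∈ S`. -/
def shatterGraph (m : ℕ) : SimpleGraph (Fin m ⊕ Set (Fin m)) where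
  Adj
    | Sum.inl i, Sum.inl j => i ≠ j
    | Sum.inr S, Sum.inr T => S ≠ T
    | Sum.inl i, Sum.inr S => i ∈ S
    | Sum.inr S, Sum.inl i => i ∈ S
  symm := ⟨fun u v h => by
    rcases u with i | S <;> rcases v with j | T
    · exact Ne.symm h
    · exact h
    · exact h
    · exact Ne.symm h⟩
  loopless := ⟨fun u h => by
    rcases u with i | S
    · exact h rfl
    · exact h rfl⟩

/-- sign patterns: more than `card ι` points of `ℝ^ι` are not shattered by half-spaces through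
the origin -/
theorem exists_pattern {ι : Type} [Fintype ι] {m : ℕ} (hm : Fintype.card ι < m)
    (p : Fin m → ι → ℝ) :
    ∃ T : Set (Fin m), ∀ a : ι → ℝ, ¬ ∀ i, (i ∈ T ↔ 0 ≤ ∑ j, a j * p i j) := by
  classical
  have hdep : ¬ LinearIndependent ℝ p := by
    intro h
    have := h.fintype_card_le_finrank
    simp at this
    omega
  rw [Fintype.not_linearIndependent_iff] at hdep
  obtain ⟨g, hg, i0, hi0⟩ := hdep
  -- choose the sign so that some coefficient is negative
  obtain ⟨l, hl, i1, hi1⟩ : ∃ l : Fin m → ℝ, ∑ i, l i • p i = 0 ∧ ∃ i1, l i1 < 0 := by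
    rcases lt_or_gt_of_ne hi0 with h | h
    · exact ⟨g, hg, i0, h⟩
    · refine ⟨fun i => - g i, ?_, i0, by simpa using h⟩
      simp only [neg_smul, Finset.sum_neg_distrib, hg, neg_zero]
  refine ⟨{i | 0 ≤ l i}, fun a ha => ?_⟩
  have hzero : ∑ i, l i * ∑ j, a j * p i j = 0 := by
    have h1 : ∀ j, ∑ i, l i * p i j = 0 := by
      intro j
      have := congrFun hl j
      simpa [Finset.sum_apply] using this
    calc ∑ i, l i * ∑ j, a j * p i j = ∑ j, a j * ∑ i, l i * p i j := by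
          simp only [Finset.mul_sum]
          rw [Finset.sum_comm]
          refine Finset.sum_congr rfl fun j _ => Finset.sum_congr rfl fun i _ => by ring
      _ = 0 := by simp [h1]
  have hpos : 0 < ∑ i, l i * ∑ j, a j * p i j := by
    refine Finset.sum_pos' (fun i _ => ?_) ⟨i1, Finset.mem_univ _, ?_⟩
    · by_cases hi : 0 ≤ l i
      · exact mul_nonneg hi ((ha i).1 hi)
      · have h2 : ¬ (0 ≤ ∑ j, a j * p i j) := fun h => hi ((ha i).2 h)
        push Not at hi h2
        exact le_of_lt (mul_pos_of_neg_of_neg hi h2)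
    · have h2 : ¬ (0 ≤ ∑ j, a j * p i1 j) := fun h => absurd ((ha i1).2 h) (not_le.2 hi1)
      push Not at h2
      exact mul_pos_of_neg_of_neg hi1 h2
  linarith

/-- two spheres in dimension `≥ 2` meet iff a quartic expression is nonnegative -/
theorem sphere_inter_iff {d : ℕ} (hd : 2 ≤ d) (c c' : EuclideanSpace ℝ (Fin d)) {r r' : ℝ}
    (hr : 0 < r) (hr' : 0 < r') :
    (Metric.sphere c r ∩ Metric.sphere c' r').Nonempty ↔
      (‖c‖ ^ 2 - r ^ 2 + (‖c'‖ ^ 2 - r' ^ 2) - 2 * inner ℝ c c') ^ 2 ≤ 4 * r ^ 2 * r' ^ 2 := by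
  have hexp : ‖c‖ ^ 2 - r ^ 2 + (‖c'‖ ^ 2 - r' ^ 2) - 2 * inner ℝ c c'
      = ‖c' - c‖ ^ 2 - r ^ 2 - r' ^ 2 := by
    rw [norm_sub_sq_real, real_inner_comm]
    ring
  rw [hexp]
  constructor
  · rintro ⟨x, hx, hx'⟩
    rw [mem_sphere_iff_norm] at hx hx'
    -- c' - c = (x - c) - (x - c')
    have h1 : c' - c = (x - c) - (x - c') := by abel
    have h2 : ‖c' - c‖ ^ 2 - r ^ 2 - r' ^ 2 = - 2 * inner ℝ (x - c) (x - c') := by
      rw [h1, norm_sub_sq_real, hx, hx']
      ring
    have h3 := abs_real_inner_le_norm (x - c) (x - c')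
    rw [hx, hx'] at h3
    rw [h2]
    have h4 : (inner ℝ (x - c) (x - c')) ^ 2 ≤ (r * r') ^ 2 := by
      rw [← sq_abs (inner ℝ (x - c) (x - c') : ℝ)]
      exact pow_le_pow_left₀ (abs_nonneg _) h3 2
    nlinarith
  · intro h
    set D := ‖c' - c‖ with hD
    have hD0 : 0 ≤ D := norm_nonneg _
    have hd' : 2 ≤ Module.finrank ℝ (EuclideanSpace ℝ (Fin d)) := by simpa using hd
    -- a unit vector orthogonal to `c' - c`
    obtain ⟨w, hw1, hw2⟩ : ∃ w : EuclideanSpace ℝ (Fin d), ‖w‖ = 1 ∧ inner ℝ (c' - c) w = 0 := by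
      have hne : (Submodule.span ℝ {c' - c})ᗮ ≠ ⊥ := by
        intro h0
        have h1 := Submodule.finrank_add_finrank_orthogonal (Submodule.span ℝ {c' - c})
        rw [h0, finrank_bot] at h1
        have h2 := finrank_span_le_card (R := ℝ) ({c' - c} : Set (EuclideanSpace ℝ (Fin d)))
        rw [Set.toFinset_singleton, Finset.card_singleton] at h2
        omega
      obtain ⟨w, hw, hw0⟩ := Submodule.exists_mem_ne_zero_of_ne_bot hne
      have hwn : ‖w‖ ≠ 0 := norm_ne_zero_iff.2 hw0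
      refine ⟨(‖w‖)⁻¹ • w, ?_, ?_⟩
      · rw [norm_smul, norm_inv, norm_norm, inv_mul_cancel₀ hwn]
      · rw [inner_smul_right, Submodule.mem_orthogonal_singleton_iff_inner_right.1 hw, mul_zero]
    rcases eq_or_lt_of_le hD0 with h0 | hpos
    · -- same centre
      have hcc : c' = c := by
        have : ‖c' - c‖ = 0 := by rw [← hD, ← h0]
        exact sub_eq_zero.1 (norm_eq_zero.1 this)
      have hrr : r = r' := by
        rw [← h0] at h
        have h5 : (r ^ 2 - r' ^ 2) ^ 2 ≤ 0 := by nlinarith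
        have h6 : r ^ 2 - r' ^ 2 = 0 := by
          have := le_antisymm h5 (sq_nonneg _)
          exact pow_eq_zero_iff (two_ne_zero) |>.1 this
        nlinarith
      subst hcc
      subst hrr
      refine ⟨c' + r • w, ?_, ?_⟩ <;>
      · rw [mem_sphere_iff_norm, add_sub_cancel_left, norm_smul, hw1, Real.norm_eq_abs,
          abs_of_pos hr, mul_one]
    · -- different centres
      set a : ℝ := (D ^ 2 + r ^ 2 - r' ^ 2) / (2 * D ^ 2) with ha
      have haD : 2 * a * D ^ 2 = D ^ 2 + r ^ 2 - r' ^ 2 := by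
        rw [ha]
        field_simp
      have hh : 0 ≤ r ^ 2 - a ^ 2 * D ^ 2 := by
        have h7 : 0 ≤ 4 * D ^ 2 * (r ^ 2 - a ^ 2 * D ^ 2) := by
          have h8 : 4 * D ^ 2 * (r ^ 2 - a ^ 2 * D ^ 2)
              = 4 * D ^ 2 * r ^ 2 - (2 * a * D ^ 2) ^ 2 := by ring
          rw [h8, haD]
          nlinarith
        have h9 : 0 < 4 * D ^ 2 := by positivity
        exact nonneg_of_mul_nonneg_right h7 h9
      set t : ℝ := Real.sqrt (r ^ 2 - a ^ 2 * D ^ 2) with ht
      have ht2 : t ^ 2 = r ^ 2 - a ^ 2 * D ^ 2 := Real.sq_sqrt hh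
      have hnorm : ∀ b : ℝ, ‖b • (c' - c) + t • w‖ ^ 2 = b ^ 2 * D ^ 2 + t ^ 2 := by
        intro b
        rw [norm_add_sq_real, norm_smul, norm_smul, inner_smul_left, inner_smul_right, hw2, hw1,
          Real.norm_eq_abs, Real.norm_eq_abs, mul_pow, mul_pow, sq_abs, sq_abs]
        simp
        left
        rfl
      refine ⟨c + (a • (c' - c) + t • w), ?_, ?_⟩
      · rw [mem_sphere_iff_norm, add_sub_cancel_left]
        have h10 := hnorm a
        rw [ht2] at h10
        have h11 : ‖a • (c' - c) + t • w‖ ^ 2 = r ^ 2 := by rw [h10]; ring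
        exact (pow_left_inj₀ (norm_nonneg _) hr.le two_ne_zero).1 h11
      · rw [mem_sphere_iff_norm]
        have h12 : c + (a • (c' - c) + t • w) - c' = (a - 1) • (c' - c) + t • w := by
          rw [sub_smul, one_smul]
          abel
        rw [h12]
        have h10 := hnorm (a - 1)
        rw [ht2] at h10
        have h11 : ‖(a - 1) • (c' - c) + t • w‖ ^ 2 = r' ^ 2 := by
          rw [h10]
          nlinarith
        exact (pow_left_inj₀ (norm_nonneg _) hr'.le two_ne_zero).1 h11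

theorem exists_mix {A B : ℝ} (h : A * B ≤ 0) :
    ∃ s : ℝ, 0 ≤ s ∧ s ≤ 1 ∧ (1 - s) * A + s * B = 0 := by
  by_cases hAB : A = B
  · refine ⟨0, le_rfl, zero_le_one, ?_⟩
    have : A = 0 := by
      rw [← hAB] at h
      nlinarith [mul_self_nonneg A, mul_self_eq_zero.1 (le_antisymm h (mul_self_nonneg A))]
    rw [this]; ring
  have hne : A - B ≠ 0 := sub_ne_zero.2 hAB
  refine ⟨A / (A - B), ?_, ?_, by field_simp; ring⟩
  · rcases mul_nonpos_iff.1 h with ⟨ha, hb⟩ | ⟨ha, hb⟩
    · exact div_nonneg ha (by linarith)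
    · exact div_nonneg_of_nonpos ha (by linarith)
  · rcases mul_nonpos_iff.1 h with ⟨ha, hb⟩ | ⟨ha, hb⟩
    · have hpos : 0 < A - B := lt_of_le_of_ne (by linarith) (Ne.symm hne)
      rw [div_le_one hpos]; linarith
    · have hneg : A - B < 0 := lt_of_le_of_ne (by linarith) hne
      rw [div_le_one_of_neg hneg]; linarith

/-- in coordinates: a point of the unit disc on the line `PQ` lies on the chord `PQ` -/
theorem exists_param {p0 p1 q0 q1 x0 x1 : ℝ} (e1 : p0 ^ 2 + p1 ^ 2 = 1) (e2 : q0 ^ 2 + q1 ^ 2 = 1)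
    (hne : ¬ (p0 = q0 ∧ p1 = q1)) (hx : x0 ^ 2 + x1 ^ 2 ≤ 1)
    (hl : (q0 - p0) * (x1 - p1) - (q1 - p1) * (x0 - p0) = 0) :
    ∃ t : ℝ, 0 ≤ t ∧ t ≤ 1 ∧ x0 = p0 + t * (q0 - p0) ∧ x1 = p1 + t * (q1 - p1) := by
  set n : ℝ := (q0 - p0) ^ 2 + (q1 - p1) ^ 2 with hn
  have hn0 : 0 < n := by
    rcases not_and_or.1 hne with h | h
    · have : q0 - p0 ≠ 0 := sub_ne_zero.2 (Ne.symm h)
      positivity
    · have : q1 - p1 ≠ 0 := sub_ne_zero.2 (Ne.symm h)
      positivity
  set t : ℝ := ((x0 - p0) * (q0 - p0) + (x1 - p1) * (q1 - p1)) / n with ht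
  have htn : t * n = (x0 - p0) * (q0 - p0) + (x1 - p1) * (q1 - p1) := by
    rw [ht]; field_simp
  have h0 : x0 = p0 + t * (q0 - p0) := by
    have h : n * (x0 - (p0 + t * (q0 - p0))) = 0 := by
      have : n * (x0 - (p0 + t * (q0 - p0))) = n * (x0 - p0) - (t * n) * (q0 - p0) := by ring
      rw [this, htn, hn]
      linear_combination (-(q1 - p1)) * hl
    rcases mul_eq_zero.1 h with h | h
    · exact absurd h hn0.ne'
    · linarith
  have h1 : x1 = p1 + t * (q1 - p1) := by
    have h : n * (x1 - (p1 + t * (q1 - p1))) = 0 := by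
      have : n * (x1 - (p1 + t * (q1 - p1))) = n * (x1 - p1) - (t * n) * (q1 - p1) := by ring
      rw [this, htn, hn]
      linear_combination (q0 - p0) * hl
    rcases mul_eq_zero.1 h with h | h
    · exact absurd h hn0.ne'
    · linarith
  have hq : t * (t - 1) * n ≤ 0 := by
    have : x0 ^ 2 + x1 ^ 2 = 1 + t * (t - 1) * n := by
      rw [h0, h1, hn]
      linear_combination (1 - t) * e1 + t * e2
    linarith
  have hq' : t * (t - 1) ≤ 0 := by
    by_contra hcon
    push Not at hcon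
    have := mul_pos hcon hn0
    linarith
  rcases mul_nonpos_iff.1 hq' with ⟨ha, hb⟩ | ⟨ha, hb⟩
  · exact ⟨t, ha, by linarith, h0, h1⟩
  · exact ⟨t, by linarith, by linarith, h0, h1⟩

/-- the affine functional vanishing on the line through `P` and `Q` -/
noncomputable def lineFun (P Q x : EuclideanSpace ℝ (Fin 2)) : ℝ :=
  (Q 0 - P 0) * (x 1 - P 1) - (Q 1 - P 1) * (x 0 - P 0)

/-- two chords of the unit circle meet iff the ends of one are not strictly on the same side of
the other -/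
theorem chord_inter_iff {P Q P' Q' : EuclideanSpace ℝ (Fin 2)} (hP : ‖P‖ = 1) (hQ : ‖Q‖ = 1)
    (hPQ : P ≠ Q) (hP' : ‖P'‖ = 1) (hQ' : ‖Q'‖ = 1) :
    (segment ℝ P Q ∩ segment ℝ P' Q').Nonempty ↔ lineFun P Q P' * lineFun P Q Q' ≤ 0 := by
  have hsq : ∀ x : EuclideanSpace ℝ (Fin 2), ‖x‖ ^ 2 = x 0 ^ 2 + x 1 ^ 2 := by
    intro x
    rw [EuclideanSpace.real_norm_sq_eq, Fin.sum_univ_two]
  have e1 : P 0 ^ 2 + P 1 ^ 2 = 1 := by rw [← hsq, hP]; norm_num
  have e2 : Q 0 ^ 2 + Q 1 ^ 2 = 1 := by rw [← hsq, hQ]; norm_num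
  have e3 : P' 0 ^ 2 + P' 1 ^ 2 = 1 := by rw [← hsq, hP']; norm_num
  have e4 : Q' 0 ^ 2 + Q' 1 ^ 2 = 1 := by rw [← hsq, hQ']; norm_num
  rw [segment_eq_image', segment_eq_image']
  unfold lineFun
  constructor
  · rintro ⟨x, ⟨t, ⟨ht0, ht1⟩, rfl⟩, ⟨s, ⟨hs0, hs1⟩, hs⟩⟩
    have h0 := congrArg (fun y : EuclideanSpace ℝ (Fin 2) => y 0) hs
    have h1 := congrArg (fun y : EuclideanSpace ℝ (Fin 2) => y 1) hs
    simp only [PiLp.add_apply, PiLp.smul_apply, PiLp.sub_apply, smul_eq_mul] at h0 h1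
    have key : ∀ A B : ℝ, (1 - s) * A + s * B = 0 → A * B ≤ 0 := by
      intro A B hAB
      have h3 : A * B = - ((1 - s) * A ^ 2 + s * B ^ 2) := by
        linear_combination (A + B) * hAB
      rw [h3]
      have h5 : 0 ≤ (1 - s) * A ^ 2 := mul_nonneg (by linarith) (sq_nonneg _)
      have h6 : 0 ≤ s * B ^ 2 := mul_nonneg hs0 (sq_nonneg _)
      linarith
    apply key
    linear_combination (Q 0 - P 0) * h1 - (Q 1 - P 1) * h0
  · intro hle
    obtain ⟨s, hs0, hs1, hs⟩ := exists_mix hle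
    obtain ⟨t, ht0, ht1, h0, h1⟩ := exists_param (p0 := P 0) (p1 := P 1) (q0 := Q 0) (q1 := Q 1)
      (x0 := P' 0 + s * (Q' 0 - P' 0)) (x1 := P' 1 + s * (Q' 1 - P' 1)) e1 e2
      (fun h => hPQ (by
        ext i
        fin_cases i
        · exact h.1
        · exact h.2))
      (by
        have h5 : 0 ≤ s * (1 - s) * ((P' 0 - Q' 0) ^ 2 + (P' 1 - Q' 1) ^ 2) := by
          have := mul_nonneg hs0 (show 0 ≤ 1 - s by linarith)
          positivity
        have h6 : (P' 0 + s * (Q' 0 - P' 0)) ^ 2 + (P' 1 + s * (Q' 1 - P' 1)) ^ 2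
            = 1 - s * (1 - s) * ((P' 0 - Q' 0) ^ 2 + (P' 1 - Q' 1) ^ 2) := by
          linear_combination (1 - s) * e3 + s * e4
        rw [h6]
        linarith)
      (by linear_combination hs)
    refine ⟨P' + s • (Q' - P'), ⟨t, ⟨ht0, ht1⟩, ?_⟩, ⟨s, ⟨hs0, hs1⟩, rfl⟩⟩
    ext i
    fin_cases i
    · simp only [PiLp.add_apply, PiLp.smul_apply, PiLp.sub_apply, smul_eq_mul, Fin.zero_eta]
      exact h0.symm
    · simp only [PiLp.add_apply, PiLp.smul_apply, PiLp.sub_apply, smul_eq_mul, Fin.mk_one]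
      exact h1.symm

theorem not_sphereGraph {d m : ℕ} (hd : 2 ≤ d) (hm : (d + 2) * (d + 2) + 1 < m) :
    ¬ IsSphereGraph d (shatterGraph m) := by
  rintro ⟨c, r, hr, h⟩
  -- the coordinates attached to a vertex, and the dual ones
  let X : Fin m ⊕ Set (Fin m) → Option (Option (Fin d)) → ℝ := fun v k =>
    k.elim 1 (fun k' => k'.elim (‖c v‖ ^ 2 - r v ^ 2) (fun i => c v i))
  let Y : Fin m ⊕ Set (Fin m) → Option (Option (Fin d)) → ℝ := fun v k =>
    k.elim (‖c v‖ ^ 2 - r v ^ 2) (fun k' => k'.elim 1 (fun i => - 2 * c v i))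
  have hXY : ∀ u v, ∑ k, Y u k * X v k =
      ‖c u‖ ^ 2 - r u ^ 2 + (‖c v‖ ^ 2 - r v ^ 2) - 2 * inner ℝ (c u) (c v) := by
    intro u v
    rw [Fintype.sum_option, Fintype.sum_option]
    simp only [X, Y, Option.elim]
    have h1 : ∑ i, -2 * (c u) i * (c v) i = - (2 * inner ℝ (c u) (c v)) := by
      rw [PiLp.inner_apply, Finset.mul_sum, ← Finset.sum_neg_distrib]
      refine Finset.sum_congr rfl fun i _ => ?_
      rw [real_inner_eq_re_inner]
      simp
      ring
    rw [h1]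
    ring
  obtain ⟨T, hT⟩ := exists_pattern (ι := Option (Option (Option (Fin d)) × Option (Option (Fin d))))
    (m := m) (by simpa using hm)
    (fun i k => k.elim ((r (Sum.inl i)) ^ 2) (fun kl => X (Sum.inl i) kl.1 * X (Sum.inl i) kl.2))
  refine hT (fun k => k.elim (4 * (r (Sum.inr T)) ^ 2)
    (fun kl => - (Y (Sum.inr T) kl.1 * Y (Sum.inr T) kl.2))) fun i => ?_
  have h1 := h (Sum.inr T) (Sum.inl i) (by simp)
  have h2 : (shatterGraph m).Adj (Sum.inr T) (Sum.inl i) ↔ i ∈ T := Iff.rfl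
  have h3 : ∑ kl : Option (Option (Fin d)) × Option (Option (Fin d)),
      - (Y (Sum.inr T) kl.1 * Y (Sum.inr T) kl.2) * (X (Sum.inl i) kl.1 * X (Sum.inl i) kl.2)
      = - (∑ k, Y (Sum.inr T) k * X (Sum.inl i) k) ^ 2 := by
    rw [sq, Finset.sum_mul_sum, ← Fintype.sum_prod_type', ← Finset.sum_neg_distrib]
    refine Finset.sum_congr rfl fun kl _ => ?_
    ring
  rw [← h2, h1, sphere_inter_iff hd _ _ (hr _) (hr _), ← hXY]
  generalize (∑ k, Y (Sum.inr T) k * X (Sum.inl i) k) = S at h3 ⊢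
  rw [Fintype.sum_option]
  simp only [Option.elim]
  rw [h3]
  constructor
  · intro h4; linarith
  · intro h4; linarith

theorem not_circleGraph {m : ℕ} (hm : 9 < m) : ¬ IsCircleGraph (shatterGraph m) := by
  rintro ⟨P, Q, hPQ, h⟩
  let L : Fin m ⊕ Set (Fin m) → Fin 3 → ℝ := fun v =>
    ![- (Q v 1 - P v 1), Q v 0 - P v 0, (Q v 1 - P v 1) * P v 0 - (Q v 0 - P v 0) * P v 1]
  obtain ⟨T, hT⟩ := exists_pattern (ι := Fin 3 × Fin 3) (m := m) (by simpa using hm)
    (fun i k => L (Sum.inl i) k.1 * L (Sum.inl i) k.2)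
  let A : Fin 3 → ℝ := ![P (Sum.inr T) 0, P (Sum.inr T) 1, 1]
  let B : Fin 3 → ℝ := ![Q (Sum.inr T) 0, Q (Sum.inr T) 1, 1]
  refine hT (fun k => - (A k.1 * B k.2)) fun i => ?_
  have h1 := h (Sum.inl i) (Sum.inr T) (by simp)
  have h2 : (shatterGraph m).Adj (Sum.inl i) (Sum.inr T) ↔ i ∈ T := Iff.rfl
  rw [← h2, h1, chord_inter_iff (hPQ _).1 (hPQ _).2.1 (hPQ _).2.2 (hPQ _).1 (hPQ _).2.1]
  have h3 : ∑ k : Fin 3 × Fin 3, - (A k.1 * B k.2) * (L (Sum.inl i) k.1 * L (Sum.inl i) k.2)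
      = - (lineFun (P (Sum.inl i)) (Q (Sum.inl i)) (P (Sum.inr T)) *
        lineFun (P (Sum.inl i)) (Q (Sum.inl i)) (Q (Sum.inr T))) := by
    rw [Fintype.sum_prod_type]
    simp only [Fin.sum_univ_three, A, B, L, lineFun, Matrix.cons_val_zero, Matrix.cons_val_one,
      Matrix.cons_val]
    ring
  rw [h3]
  constructor
  · intro h4; linarith
  · intro h4; linarith

theorem not_inducedMinor (m : ℕ) :
    ¬ IsInducedMinor (⊥ : SimpleGraph (Fin 3)) (shatterGraph m) := by
  rintro ⟨B, hconn, hdisj, hadj⟩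
  have hne : ∀ w, ∃ x, x ∈ B w := fun w => by
    obtain ⟨x⟩ := (hconn w).nonempty
    exact ⟨x.1, x.2⟩
  choose x hx using hne
  have hxne : ∀ w w', w ≠ w' → x w ≠ x w' := by
    intro w w' hww he
    exact Set.disjoint_left.1 (hdisj w w' hww) (hx w) (he ▸ hx w')
  have hnadj : ∀ w w', w ≠ w' → ¬ (shatterGraph m).Adj (x w) (x w') := by
    intro w w' hww ha
    exact ((hadj w w' hww).2 ⟨x w, hx w, x w', hx w', ha⟩)
  have hside : ∀ w w', w ≠ w' → (x w).isLeft ≠ (x w').isLeft := by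
    intro w w' hww he
    have h1 := hxne w w' hww
    have h2 := hnadj w w' hww
    rcases hw : x w with i | S <;> rcases hw' : x w' with j | T <;> rw [hw, hw'] at h1 h2 he
    · exact h2 (show i ≠ j from fun h => h1 (by rw [h]))
    · simp at he
    · simp at he
    · exact h2 (show S ≠ T from fun h => h1 (by rw [h]))
  have h01 := hside 0 1 (by decide)
  have h02 := hside 0 2 (by decide)
  have h12 := hside 1 2 (by decide)
  rcases h0 : (x 0).isLeft <;> rcases h1 : (x 1).isLeft <;> rcases h2 : (x 2).isLeft <;>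
    simp_all

/-- **Main theorem.** For `H = 3 K_1` the class of finite graphs without induced minor `H` contains
graphs of arbitrarily large sphere dimension. -/
theorem result : ∀ D : ℕ, ∃ (V : Type) (_ : Finite V) (G : SimpleGraph V),
    ¬ IsInducedMinor (⊥ : SimpleGraph (Fin 3)) G ∧ (D : ℕ∞) < sphereDim G := by
  intro D
  refine ⟨Fin ((D + 2) * (D + 2) + 10) ⊕ Set (Fin ((D + 2) * (D + 2) + 10)), inferInstance,
    shatterGraph _, not_inducedMinor _, ?_⟩
  unfold sphereDim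
  rw [if_neg (not_circleGraph (by omega))]
  have h1 : ((D + 1 : ℕ) : ℕ∞) ≤ ⨅ d ∈ {d : ℕ | 2 ≤ d ∧
      IsSphereGraph d (shatterGraph ((D + 2) * (D + 2) + 10))}, (d : ℕ∞) := by
    refine le_iInf₂ fun d hd => ?_
    obtain ⟨hd2, hd3⟩ := hd
    by_contra hcon
    have h2 : d ≤ D := by
      by_contra h
      exact hcon (by exact_mod_cast (by omega : D + 1 ≤ d))
    refine not_sphereGraph hd2 ?_ hd3
    have : (d + 2) * (d + 2) ≤ (D + 2) * (D + 2) := Nat.mul_le_mul (by omega) (by omega)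
    omega
  refine lt_of_lt_of_le ?_ h1
  exact_mod_cast Nat.lt_succ_self D

end Pool.Agent.Results.MP_97b8d2_co.CoBipartite
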